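import Pool.Agent.TH984.GB.Defs

/-!
# The coefficients of `det (N + s A + t B)` are nonnegative for positive semidefinite matrices
-/

set_option autoImplicit false
set_option linter.unusedSectionVars false

open Matrix

namespace Pool.Agent.TH113.GB

open Pool.Agent.TH984.GB

open scoped MatrixOrder in
theorem exists_factor {ι : Type} [Fintype ι] [DecidableEq ι] (M : Matrix ι ι ℝ)
    (hM : M.PosSemidef) : ∃ S : Matrix ι ι ℝ, ∀ i j, M i j = ∑ p, S p i * S p j := by
  obtain ⟨B, hB⟩ := CStarAlgebra.nonneg_iff_eq_star_mul_self.mp hM.nonneg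
  refine ⟨B, fun i j => ?_⟩
  rw [hB, Matrix.star_eq_conjTranspose, Matrix.conjTranspose_eq_transpose_of_trivial]
  rfl

section

variable {ι : Type} [Fintype ι] [DecidableEq ι]

/-- the determinant of the chosen rows -/
noncomputable def D (X : Fin 3 → Matrix ι ι ℝ) (f : ι → Fin 3) (g : ι → ι) : ℝ :=
  (Matrix.of fun i j => X (f i) (g i) j).det

theorem expand (X : Fin 3 → Matrix ι ι ℝ) (M : Fin 3 → Matrix ι ι ℝ)
    (hM : ∀ k i j, M k i j = ∑ p, X k p i * X k p j) (f : ι → Fin 3) :
    (Matrix.of fun i => M (f i) i).det =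
      ∑ g : ι → ι, (∏ i, X (f i) (g i) i) * D X f g := by
  have h1 : (Matrix.of fun i => M (f i) i) =
      (fun i => ∑ p, X (f i) p i • X (f i) p : ι → ι → ℝ) := by
    funext i j
    rw [Matrix.of_apply, hM, Finset.sum_apply]
    rfl
  have h2 := (Matrix.detRowAlternating (n := ι) (R := ℝ)).toMultilinearMap.map_sum
    (fun (i : ι) (p : ι) => X (f i) p i • X (f i) p)
  have h3 : ∀ g : ι → ι, (Matrix.detRowAlternating (n := ι) (R := ℝ)).toMultilinearMap
      (fun i => X (f i) (g i) i • X (f i) (g i)) = (∏ i, X (f i) (g i) i) * D X f g := by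
    intro g
    rw [(Matrix.detRowAlternating (n := ι) (R := ℝ)).toMultilinearMap.map_smul_univ
      (fun i => X (f i) (g i) i) (fun i => X (f i) (g i)), smul_eq_mul]
    rfl
  rw [h1]
  simp_rw [h3] at h2
  exact h2

/-- the type of a choice of rows -/
def ty (j l : ℕ) (f : ι → Fin 3) : Prop :=
  (Finset.univ.filter fun i => f i = 1).card = j ∧ (Finset.univ.filter fun i => f i = 2).card = l

instance (j l : ℕ) (f : ι → Fin 3) : Decidable (ty j l f) := by
  unfold ty
  infer_instance

theorem card_perm (f : ι → Fin 3) (σ : Equiv.Perm ι) (k : Fin 3) :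
    (Finset.univ.filter fun i => f (σ i) = k).card = (Finset.univ.filter fun i => f i = k).card := by
  refine Finset.card_bij (fun i _ => σ i) ?_ ?_ ?_
  · intro i hi
    rw [Finset.mem_filter] at hi ⊢
    exact ⟨Finset.mem_univ _, hi.2⟩
  · intro i _ j _ h
    exact σ.injective h
  · intro j hj
    rw [Finset.mem_filter] at hj
    refine ⟨σ.symm j, ?_, σ.apply_symm_apply j⟩
    rw [Finset.mem_filter, σ.apply_symm_apply]
    exact ⟨Finset.mem_univ _, hj.2⟩

theorem ty_perm (j l : ℕ) (f : ι → Fin 3) (σ : Equiv.Perm ι) :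
    ty j l (fun i => f (σ i)) ↔ ty j l f := by
  unfold ty
  rw [card_perm f σ, card_perm f σ]

theorem D_perm (X : Fin 3 → Matrix ι ι ℝ) (f : ι → Fin 3) (g : ι → ι) (σ : Equiv.Perm ι) :
    D X (fun i => f (σ i)) (fun i => g (σ i)) = (Equiv.Perm.sign σ : ℤ) * D X f g := by
  unfold D
  exact Matrix.det_permute σ (Matrix.of fun i j => X (f i) (g i) j)

theorem D_apply (X : Fin 3 → Matrix ι ι ℝ) (f : ι → Fin 3) (g : ι → ι) :
    D X f g = ∑ σ : Equiv.Perm ι, ((Equiv.Perm.sign σ : ℤ) : ℝ) *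
      ∏ i, X (f (σ i)) (g (σ i)) i := by
  unfold D
  rw [Matrix.det_apply']
  rfl

/-- composition with a permutation -/
def cmp (α : Type) (σ : Equiv.Perm ι) : (ι → α) ≃ (ι → α) where
  toFun f := fun i => f (σ i)
  invFun f := fun i => f (σ.symm i)
  left_inv f := by
    funext i
    simp
  right_inv f := by
    funext i
    simp

theorem main_eq (X : Fin 3 → Matrix ι ι ℝ) (j l : ℕ) :
    (Fintype.card (Equiv.Perm ι) : ℝ) * ∑ f : ι → Fin 3, ∑ g : ι → ι,
        (if ty j l f then (∏ i, X (f i) (g i) i) * D X f g else 0) =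
      ∑ f : ι → Fin 3, ∑ g : ι → ι, (if ty j l f then D X f g ^ 2 else 0) := by
  have h1 : ∀ σ : Equiv.Perm ι, ∑ f : ι → Fin 3, ∑ g : ι → ι,
        (if ty j l f then (∏ i, X (f i) (g i) i) * D X f g else 0) =
      ∑ f : ι → Fin 3, ∑ g : ι → ι, (if ty j l f then
        (∏ i, X (f (σ i)) (g (σ i)) i) * (((Equiv.Perm.sign σ : ℤ) : ℝ) * D X f g) else 0) := by
    intro σ
    rw [← Equiv.sum_comp (cmp (Fin 3) σ)]
    refine Finset.sum_congr rfl fun f _ => ?_
    rw [← Equiv.sum_comp (cmp ι σ)]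
    refine Finset.sum_congr rfl fun g _ => ?_
    have e1 : ty j l (cmp (Fin 3) σ f) ↔ ty j l f := ty_perm j l f σ
    have e2 : D X (cmp (Fin 3) σ f) (cmp ι σ g) = ((Equiv.Perm.sign σ : ℤ) : ℝ) * D X f g :=
      D_perm X f g σ
    rw [e2]
    by_cases h : ty j l f
    · rw [if_pos h, if_pos (e1.2 h)]
      rfl
    · rw [if_neg h, if_neg (fun h2 => h (e1.1 h2))]
  calc (Fintype.card (Equiv.Perm ι) : ℝ) * ∑ f : ι → Fin 3, ∑ g : ι → ι,
        (if ty j l f then (∏ i, X (f i) (g i) i) * D X f g else 0)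
      = ∑ _σ : Equiv.Perm ι, ∑ f : ι → Fin 3, ∑ g : ι → ι,
        (if ty j l f then (∏ i, X (f i) (g i) i) * D X f g else 0) := by
        rw [Finset.sum_const, Finset.card_univ, nsmul_eq_mul]
    _ = ∑ σ : Equiv.Perm ι, ∑ f : ι → Fin 3, ∑ g : ι → ι, (if ty j l f then
        (∏ i, X (f (σ i)) (g (σ i)) i) * (((Equiv.Perm.sign σ : ℤ) : ℝ) * D X f g) else 0) :=
        Finset.sum_congr rfl fun σ _ => h1 σ
    _ = ∑ f : ι → Fin 3, ∑ g : ι → ι, ∑ σ : Equiv.Perm ι, (if ty j l f then
        (∏ i, X (f (σ i)) (g (σ i)) i) * (((Equiv.Perm.sign σ : ℤ) : ℝ) * D X f g) else 0) := by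
        rw [Finset.sum_comm]
        refine Finset.sum_congr rfl fun f _ => ?_
        rw [Finset.sum_comm]
    _ = _ := by
        refine Finset.sum_congr rfl fun f _ => Finset.sum_congr rfl fun g _ => ?_
        by_cases h : ty j l f
        · simp only [if_pos h]
          rw [sq]
          conv_rhs => rw [D_apply, Finset.sum_mul]
          rw [← D_apply]
          refine Finset.sum_congr rfl fun σ _ => ?_
          ring
        · simp only [if_neg h, Finset.sum_const_zero]

end

theorem t_NN : Pool.Agent.TH984.GB.S_NN := by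
  intro ι _ _ N A B hN hA hB j l
  obtain ⟨XN, hXN⟩ := exists_factor N hN
  obtain ⟨XA, hXA⟩ := exists_factor A hA
  obtain ⟨XB, hXB⟩ := exists_factor B hB
  obtain ⟨X, hX⟩ : ∃ X : Fin 3 → Matrix ι ι ℝ, X = ![XN, XA, XB] := ⟨_, rfl⟩
  have hM : ∀ k i j, pick N A B k i j = ∑ p, X k p i * X k p j := by
    intro k i j
    rw [hX]
    unfold pick
    fin_cases k
    · exact hXN i j
    · exact hXA i j
    · exact hXB i j
  have h1 : Coef N A B j l = ∑ f : ι → Fin 3, ∑ g : ι → ι,
        (if ty j l f then (∏ i, X (f i) (g i) i) * D X f g else 0) := by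
    unfold Coef
    refine Finset.sum_congr rfl fun f _ => ?_
    by_cases h : ty j l f
    · simp only [if_pos h]
      rw [if_pos (show (Finset.univ.filter fun i => f i = 1).card = j ∧
        (Finset.univ.filter fun i => f i = 2).card = l from h)]
      exact expand X (pick N A B) hM f
    · simp only [if_neg h, Finset.sum_const_zero]
      rw [if_neg (show ¬ ((Finset.univ.filter fun i => f i = 1).card = j ∧
        (Finset.univ.filter fun i => f i = 2).card = l) from h)]
  have h2 := main_eq X j l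
  rw [← h1] at h2
  have h3 : 0 ≤ ∑ f : ι → Fin 3, ∑ g : ι → ι, (if ty j l f then D X f g ^ 2 else 0) := by
    refine Finset.sum_nonneg fun f _ => Finset.sum_nonneg fun g _ => ?_
    split_ifs
    · positivity
    · exact le_rfl
  rw [← h2] at h3
  have h4 : (0 : ℝ) < (Fintype.card (Equiv.Perm ι) : ℝ) := by
    exact_mod_cast Fintype.card_pos
  exact nonneg_of_mul_nonneg_right h3 h4

end Pool.Agent.TH113.GB
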